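import Pool.Agent.Helper25.PHMain

/-!
MP_643687_an, Q1: the answer is no, and the exact parameter range is determined.
-/

set_option autoImplicit false

open Pool.Agent.Helper25.PH

namespace Pool.Agent.Results.MP_643687_an.DistributionalSolutions

/-- Complete answer to Q1. For all `n ≥ 1`, `m ≥ 1`, `p > 1`, `σ ∈ ℝ` with `n - 2m - θ > 0`, where
`θ = (2m+σ)/(p-1)`, the equation `(-Δ)^m u = |x|^σ u^p` in `ℝⁿ` has a distributional solution if
and only if `θ(θ+2)⋯(θ+2m-2) > 0`. In particular the answer to Q1 is negative. -/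
theorem result :
    (∀ (n m : ℕ) (p σ : ℝ), 1 ≤ n → 1 ≤ m → 1 < p → 0 < n - 2 * m - (2 * m + σ) / (p - 1) →
      ((∃ u : En n → ℝ, IsDistSol n m p σ u) ↔
        0 < ∏ j ∈ Finset.range m, ((2 * m + σ) / (p - 1) + 2 * j))) ∧
    ¬ (∀ (n m : ℕ) (p σ : ℝ), 1 ≤ n → 2 ≤ m → 1 < p → σ < -(2 * m) →
      0 < n - 2 * m - (2 * m + σ) / (p - 1) → ∃ u : En n → ℝ, IsDistSol n m p σ u) := by
  refine ⟨fun n m p σ hn _ hp hθ => exists_iff n m p σ hn hp hθ, fun h => ?_⟩
  have h1 := h 4 2 2 (-5) (by norm_num) le_rfl (by norm_num) (by norm_num) (by norm_num)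
  rw [exists_iff 4 2 2 (-5) (by norm_num) (by norm_num) (by norm_num)] at h1
  norm_num [Finset.prod_range_succ] at h1

end Pool.Agent.Results.MP_643687_an.DistributionalSolutions
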